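import Mathlib

/-!
# MP_a310d2_co: no linear bound for the outer mutual-visibility number under vertex deletion

`G` is a comb (a spine with `k` vertices, each carrying a leg with `M` further vertices) together
with an apex `x` adjacent to all ends of legs.
-/

namespace Pool.Agent.Results.MP_a310d2_co.NoLinearBound

open SimpleGraph

variable {V : Type}

/-- Some shortest `u`–`v` path has no internal vertex in `S`. -/
def Visible (G : SimpleGraph V) (S : Set V) (u v : V) : Prop :=
  ∃ p : G.Walk u v, p.IsPath ∧ p.length = G.dist u v ∧ ∀ w ∈ p.support, w ≠ u → w ≠ v → w ∉ S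

/-- Outer mutual-visibility sets. -/
def IsOMV (G : SimpleGraph V) (S : Set V) : Prop := ∀ u ∈ S, ∀ v, Visible G S u v

/-- The outer mutual-visibility number. -/
noncomputable def muO (G : SimpleGraph V) : ℕ :=
  sSup {n | ∃ S : Finset V, IsOMV G (S : Set V) ∧ S.card = n}

/-- The vertices: `none` is the apex, `some (i, 0)` the spine, `some (i, s)`, `s ≥ 1`, the legs. -/
abbrev Vert (k M : ℕ) : Type := Option (Fin k × Fin (M + 1))

/-- The comb with an apex. -/
def comb (k M : ℕ) : SimpleGraph (Vert k M) where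
  Adj u v := match u, v with
    | some (i, s), some (j, t) => (i.val = j.val ∧ (s.val + 1 = t.val ∨ t.val + 1 = s.val)) ∨
        (s.val = 0 ∧ t.val = 0 ∧ (i.val + 1 = j.val ∨ j.val + 1 = i.val))
    | some (_, s), none => s.val = M
    | none, some (_, s) => s.val = M
    | none, none => False
  symm := ⟨by
    rintro (_ | ⟨i, s⟩) (_ | ⟨j, t⟩) h
    · exact h
    · exact h
    · exact h
    · simp only at h ⊢; omega⟩
  loopless := ⟨by
    rintro (_ | ⟨i, s⟩) h
    · exact h
    · simp only at h; omega⟩

theorem adj_ss {k M : ℕ} (i j : Fin k) (s t : Fin (M + 1)) :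
    (comb k M).Adj (some (i, s)) (some (j, t)) ↔
      (i.val = j.val ∧ (s.val + 1 = t.val ∨ t.val + 1 = s.val)) ∨
        (s.val = 0 ∧ t.val = 0 ∧ (i.val + 1 = j.val ∨ j.val + 1 = i.val)) := Iff.rfl

theorem adj_sn {k M : ℕ} (i : Fin k) (s : Fin (M + 1)) :
    (comb k M).Adj (some (i, s)) none ↔ s.val = M := Iff.rfl

/-- Potential functions bound lengths of walks avoiding a vertex from below. -/
theorem potential {G : SimpleGraph V} (φ : V → ℤ) (w : V)
    (h : ∀ a b, G.Adj a b → a ≠ w → b ≠ w → φ b ≤ φ a + 1) {u v : V} (p : G.Walk u v)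
    (hp : w ∉ p.support) : φ v ≤ φ u + p.length := by
  induction p with
  | nil => simp
  | @cons a b c hab q ih =>
    rw [Walk.support_cons, List.mem_cons, not_or] at hp
    have h1 := ih hp.2
    have h2 : φ b ≤ φ a + 1 := h a b hab (fun e => hp.1 e.symm) (fun e => by
      apply hp.2; rw [← e]; exact q.start_mem_support)
    rw [Walk.length_cons]
    push_cast
    linarith

/-! ### Reachability and distances -/

theorem leg_reach {k M : ℕ} (i : Fin k) (n : ℕ) (hn : n < M + 1) :
    ∃ p : (comb k M).Walk (some (i, ⟨n, hn⟩)) none, p.length ≤ M + 1 - n := by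
  induction hd : M - n generalizing n with
  | zero =>
    have h : (comb k M).Adj (some (i, ⟨n, hn⟩)) none := (adj_sn _ _).2 (by simp only; omega)
    exact ⟨Walk.cons h Walk.nil, by simp; omega⟩
  | succ d ih =>
    obtain ⟨p, hp⟩ := ih (n + 1) (by omega) (by omega)
    have h : (comb k M).Adj (some (i, ⟨n, hn⟩)) (some (i, ⟨n + 1, by omega⟩)) :=
      (adj_ss _ _ _ _).2 (Or.inl ⟨rfl, Or.inl rfl⟩)
    exact ⟨Walk.cons h p, by rw [Walk.length_cons]; omega⟩

theorem comb_connected (k M : ℕ) : (comb k M).Connected := by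
  rw [connected_iff_exists_forall_reachable]
  refine ⟨none, ?_⟩
  rintro (_ | ⟨i, s⟩)
  · exact Reachable.refl _
  · obtain ⟨p, -⟩ := leg_reach i s.val s.2
    exact p.reachable.symm

theorem dist_leg {k M : ℕ} (i : Fin k) (s : Fin (M + 1)) :
    (comb k M).dist (some (i, s)) none ≤ M + 1 - s.val := by
  obtain ⟨p, hp⟩ := leg_reach i s.val s.2
  exact (dist_le p).trans hp

theorem dist_spine {k M : ℕ} (i : Fin k) (d : ℕ) (h : i.val + d < k) :
    (comb k M).dist (some (i, 0)) (some (⟨i.val + d, h⟩, 0)) ≤ d := by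
  induction d with
  | zero => simp
  | succ d ih =>
    have h1 := ih (by omega)
    have h2 : (comb k M).Adj (some (⟨i.val + d, by omega⟩, 0)) (some (⟨i.val + (d + 1), h⟩, 0)) :=
      (adj_ss _ _ _ _).2 (Or.inr ⟨rfl, rfl, Or.inl rfl⟩)
    have h3 := (comb_connected k M).dist_triangle (u := some (i, 0))
      (v := some (⟨i.val + d, by omega⟩, 0)) (w := some (⟨i.val + (d + 1), h⟩, 0))
    rw [dist_eq_one_iff_adj.2 h2] at h3
    omega

/-! ### Upper bound for the comb with apex -/

/-- Potential for a blocked leg vertex `(j, t)`, seen from the spine vertex `(j, 0)`. -/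
def phiLeg (k M : ℕ) (j t : ℤ) : Vert k M → ℤ
  | none => M + 2
  | some (a, s) => if (a.val : ℤ) = j then (if (s.val : ℤ) < t then (s.val : ℤ) else 2 * M + 3 - s.val)
      else min (max ((a.val : ℤ) - j) (j - a.val) + s.val) (2 * M + 3 - s.val)

theorem phiLeg_lip {k M : ℕ} (j : Fin k) (t : Fin (M + 1)) (ht : 1 ≤ t.val) :
    ∀ a b, (comb k M).Adj a b → a ≠ some (j, t) → b ≠ some (j, t) →
      phiLeg k M j.val t.val b ≤ phiLeg k M j.val t.val a + 1 := by
  rintro (_ | ⟨a, s⟩) (_ | ⟨b, s'⟩) h ha hb
  · exact h.elim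
  · have hs : s'.val = M := h
    have hb' : ¬ (b.val = j.val ∧ s'.val = t.val) := by
      rintro ⟨h1, h2⟩; exact hb (by rw [Fin.ext h1, Fin.ext h2])
    simp only [phiLeg]
    have := t.2
    split_ifs <;> omega
  · have hs : s.val = M := h
    have ha' : ¬ (a.val = j.val ∧ s.val = t.val) := by
      rintro ⟨h1, h2⟩; exact ha (by rw [Fin.ext h1, Fin.ext h2])
    simp only [phiLeg]
    have := t.2
    split_ifs <;> omega
  · rw [adj_ss] at h
    have ha' : ¬ (a.val = j.val ∧ s.val = t.val) := by
      rintro ⟨h1, h2⟩; exact ha (by rw [Fin.ext h1, Fin.ext h2])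
    have hb' : ¬ (b.val = j.val ∧ s'.val = t.val) := by
      rintro ⟨h1, h2⟩; exact hb (by rw [Fin.ext h1, Fin.ext h2])
    simp only [phiLeg]
    have := t.2
    have := s.2
    have := s'.2
    split_ifs <;> omega

/-- Potential for a blocked spine vertex `(b, 0)`. -/
def phiSpine (k M : ℕ) (b : ℤ) : Vert k M → ℤ
  | none => M + 1
  | some (a, s) => if (a.val : ℤ) < b then (s.val : ℤ) else 2 * M + 2 - s.val

theorem phiSpine_lip {k M : ℕ} (j : Fin k) :
    ∀ a b, (comb k M).Adj a b → a ≠ some (j, 0) → b ≠ some (j, 0) →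
      phiSpine k M j.val b ≤ phiSpine k M j.val a + 1 := by
  rintro (_ | ⟨a, s⟩) (_ | ⟨b, s'⟩) h ha hb
  · exact h.elim
  · have hs : s'.val = M := h
    simp only [phiSpine]
    split_ifs <;> omega
  · have hs : s.val = M := h
    simp only [phiSpine]
    split_ifs <;> omega
  · rw [adj_ss] at h
    have ha' : ¬ (a.val = j.val ∧ s.val = 0) := by
      rintro ⟨h1, h2⟩; exact ha (by rw [Fin.ext h1, Fin.ext (show s.val = (0 : Fin (M + 1)).val from h2)])
    have hb' : ¬ (b.val = j.val ∧ s'.val = 0) := by
      rintro ⟨h1, h2⟩; exact hb (by rw [Fin.ext h1, Fin.ext (show s'.val = (0 : Fin (M + 1)).val from h2)])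
    simp only [phiSpine]
    split_ifs <;> omega

/-- Two leg/spine vertices of an outer mutual-visibility set: far legs are empty. -/
theorem leg_near {k M : ℕ} {S : Set (Vert k M)} (hS : IsOMV (comb k M) S) {i j : Fin k}
    {s t : Fin (M + 1)} (hu : some (i, s) ∈ S) (hw : some (j, t) ∈ S) (ht : 1 ≤ t.val) :
    i.val ≤ j.val + (2 * M + 2) ∧ j.val ≤ i.val + (2 * M + 2) := by
  by_contra hcon
  have hij : i.val ≠ j.val := by intro h; apply hcon; omega
  obtain ⟨p, -, hp1, hp2⟩ := hS _ hu (some (j, 0))
  have hnot : some (j, t) ∉ p.support := by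
    intro h
    refine hp2 _ h ?_ ?_ hw
    · intro e
      have := congrArg Prod.fst (Option.some.inj e)
      exact hij (congrArg Fin.val this).symm
    · intro e
      have := congrArg Prod.snd (Option.some.inj e)
      have := congrArg Fin.val this
      simp only [Fin.val_zero] at this
      omega
  have h1 := potential (phiLeg k M j.val t.val) (some (j, t)) (phiLeg_lip j t ht) p.reverse (by simpa using hnot)
  rw [Walk.length_reverse, hp1] at h1
  have h2 := (comb_connected k M).dist_triangle (u := some (i, s)) (v := none) (w := some (j, 0))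
  have h3 := dist_leg i s
  have h4 := dist_leg j (0 : Fin (M + 1))
  rw [dist_comm] at h4
  have hs := s.2
  simp only [phiLeg] at h1
  simp only [Fin.val_zero] at h1 h4
  split_ifs at h1 <;> omega

theorem spine_three {k M : ℕ} {S : Set (Vert k M)} (hS : IsOMV (comb k M) S) {a b e : Fin k}
    (ha : some (a, 0) ∈ S) (hb : some (b, 0) ∈ S) (hab : a.val < b.val)
    (hbe : b.val < e.val) : 2 * M + 2 ≤ e.val - a.val := by
  by_contra hcon
  push Not at hcon
  obtain ⟨p, -, hp1, hp2⟩ := hS _ ha (some (e, 0))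
  have hnot : some (b, 0) ∉ p.support := by
    intro h
    refine hp2 _ h ?_ ?_ hb
    · intro h'
      have h5 : b = a := congrArg Prod.fst (Option.some.inj h')
      rw [h5] at hab
      omega
    · intro h'
      have h5 : b = e := congrArg Prod.fst (Option.some.inj h')
      rw [h5] at hbe
      omega
  have h1 := potential (phiSpine k M b.val) (some (b, 0)) (phiSpine_lip b) p hnot
  rw [hp1] at h1
  have h2 := dist_spine (M := M) a (e.val - a.val) (by have := e.2; omega)
  have h3 : (⟨a.val + (e.val - a.val), by have := e.2; omega⟩ : Fin k) = e := Fin.ext (by simp only; omega)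
  rw [h3] at h2
  simp only [phiSpine, Fin.val_zero] at h1
  split_ifs at h1 <;> omega

theorem card_le {k M : ℕ} (S : Finset (Vert k M)) (hS : IsOMV (comb k M) (S : Set (Vert k M))) :
    S.card ≤ 1 + 2 * (k / (2 * M + 2) + 1) + (4 * M + 5) * (M + 1) := by
  classical
  -- the three parts
  let A : Finset (Vert k M) := S.filter (fun v => v = none)
  let B : Finset (Vert k M) := S.filter (fun v => ∃ i, v = some (i, 0))
  let C : Finset (Vert k M) := S.filter (fun v => ∃ (i : Fin k) (s : Fin (M + 1)), 1 ≤ s.val ∧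
    v = some (i, s))
  have hsub : S ⊆ A ∪ B ∪ C := by
    intro v hv
    rcases v with _ | ⟨i, s⟩
    · simp [A, hv]
    · by_cases h : s.val = 0
      · have : s = 0 := Fin.ext h
        subst this
        simp [B, hv]
      · have hC : some (i, s) ∈ C := Finset.mem_filter.2 ⟨hv, i, s, by omega, rfl⟩
        exact Finset.mem_union_right _ hC
  have hA : A.card ≤ 1 := by
    apply Finset.card_le_one.2
    intro a ha b hb
    rw [(Finset.mem_filter.1 ha).2, (Finset.mem_filter.1 hb).2]
  have hB : B.card ≤ 2 * (k / (2 * M + 2) + 1) := by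
    let f : Vert k M → ℕ := fun v => match v with
      | none => 0
      | some (i, _) => i.val / (2 * M + 2)
    have h1 : B.card ≤ 2 * (B.image f).card := by
      apply Finset.card_le_mul_card_image
      intro n hn
      by_contra hcon
      push Not at hcon
      obtain ⟨x, hx, y, hy, z, hz, hxy, hxz, hyz⟩ := Finset.two_lt_card.1 hcon
      simp only [Finset.mem_filter, B] at hx hy hz
      obtain ⟨⟨hx1, ⟨i1, rfl⟩⟩, hx2⟩ := hx
      obtain ⟨⟨hy1, ⟨i2, rfl⟩⟩, hy2⟩ := hy
      obtain ⟨⟨hz1, ⟨i3, rfl⟩⟩, hz2⟩ := hz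
      have n12 : i1.val ≠ i2.val := fun h => hxy (by rw [Fin.ext h])
      have n13 : i1.val ≠ i3.val := fun h => hxz (by rw [Fin.ext h])
      have n23 : i2.val ≠ i3.val := fun h => hyz (by rw [Fin.ext h])
      simp only [f] at hx2 hy2 hz2
      have key : ∀ a b e : Fin k, some (a, 0) ∈ S → some (b, 0) ∈ S → a.val < b.val →
          b.val < e.val → a.val / (2 * M + 2) = n → e.val / (2 * M + 2) = n → False := by
        intro a b e ha hb hab hbe h1 h2
        have h3 := spine_three hS (a := a) (b := b) (e := e) ha hb hab hbe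
        have h4 := Nat.div_add_mod a.val (2 * M + 2)
        have h5 := Nat.div_add_mod e.val (2 * M + 2)
        have h6 := Nat.mod_lt e.val (show 0 < 2 * M + 2 by omega)
        rw [h1] at h4
        rw [h2] at h5
        omega
      rcases Nat.lt_or_gt_of_ne n12 with h12 | h12 <;> rcases Nat.lt_or_gt_of_ne n13 with h13 | h13 <;>
        rcases Nat.lt_or_gt_of_ne n23 with h23 | h23
      · exact key i1 i2 i3 hx1 hy1 h12 h23 hx2 hz2
      · exact key i1 i3 i2 hx1 hz1 h13 h23 hx2 hy2
      · omega
      · exact key i3 i1 i2 hz1 hx1 h13 h12 hz2 hy2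
      · exact key i2 i1 i3 hy1 hx1 h12 h13 hy2 hz2
      · omega
      · exact key i2 i3 i1 hy1 hz1 h23 h13 hy2 hx2
      · exact key i3 i2 i1 hz1 hy1 h23 h12 hz2 hx2
    have h2 : (B.image f).card ≤ k / (2 * M + 2) + 1 := by
      have h3 : B.image f ⊆ Finset.range (k / (2 * M + 2) + 1) := by
        intro n hn
        obtain ⟨v, hv, rfl⟩ := Finset.mem_image.1 hn
        obtain ⟨i, rfl⟩ := (Finset.mem_filter.1 hv).2
        rw [Finset.mem_range]
        have : i.val / (2 * M + 2) ≤ k / (2 * M + 2) := Nat.div_le_div_right i.2.le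
        simp only [f]
        omega
      simpa using Finset.card_le_card h3
    calc B.card ≤ 2 * (B.image f).card := h1
      _ ≤ _ := by omega
  have hC : C.card ≤ (4 * M + 5) * (M + 1) := by
    rcases C.eq_empty_or_nonempty with h | ⟨u, hu⟩
    · rw [h]; simp
    · obtain ⟨hu1, i, s, hs, rfl⟩ := Finset.mem_filter.1 hu
      let g : Vert k M → ℕ × ℕ := fun v => match v with
        | none => (0, 0)
        | some (j, t) => (j.val + (2 * M + 2) - i.val, t.val)
      have h1 : C.card ≤ (Finset.range (4 * M + 5) ×ˢ Finset.range (M + 1)).card := by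
        apply Finset.card_le_card_of_injOn g
        · intro v hv
          obtain ⟨hv1, j, t, ht, rfl⟩ := Finset.mem_filter.1 hv
          have h2 := leg_near hS hu1 hv1 ht
          rw [Finset.mem_coe, Finset.mem_product, Finset.mem_range, Finset.mem_range]
          simp only [g]
          have := t.2
          omega
        · intro v hv v' hv' h
          obtain ⟨hv1, j, t, ht, rfl⟩ := Finset.mem_filter.1 hv
          obtain ⟨hv1', j', t', ht', rfl⟩ := Finset.mem_filter.1 hv'
          have h2 := leg_near hS hu1 hv1 ht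
          have h3 := leg_near hS hu1 hv1' ht'
          simp only [g, Prod.mk.injEq] at h
          have e1 : j = j' := Fin.ext (by omega)
          have e2 : t = t' := Fin.ext h.2
          rw [e1, e2]
      simpa using h1
  have h1 := Finset.card_le_card hsub
  have h2 := Finset.card_union_le (A ∪ B) C
  have h3 := Finset.card_union_le A B
  omega

theorem muO_le (k M : ℕ) :
    muO (comb k M) ≤ 1 + 2 * (k / (2 * M + 2) + 1) + (4 * M + 5) * (M + 1) := by
  unfold muO
  apply csSup_le'
  rintro n ⟨S, hS, rfl⟩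
  exact card_le S hS

/-! ### Lower bound for the comb without apex -/

/-- A vertex with a unique neighbour is not internal to a shortest path. -/
theorem leaf_not_internal {G : SimpleGraph V} (hG : G.Connected) {w n : V}
    (hw : ∀ y, G.Adj w y → y = n) {u v : V} (p : G.Walk u v) (hp : p.length = G.dist u v)
    (hmem : w ∈ p.support) (hu : w ≠ u) (hv : w ≠ v) : False := by
  classical
  have h1 : (p.takeUntil w hmem).length + (p.dropUntil w hmem).length = p.length := by
    rw [← Walk.length_append, Walk.take_spec]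
  have h2 : G.dist u w ≤ (p.takeUntil w hmem).length := dist_le _
  have h3 : G.dist w v ≤ (p.dropUntil w hmem).length := dist_le _
  have h4 : ∀ y, w ≠ y → G.dist n y + 1 ≤ G.dist w y := by
    intro y hy
    obtain ⟨q, hq⟩ := hG.exists_walk_length_eq_dist w y
    rw [← hq]
    cases q with
    | nil => exact absurd rfl hy
    | cons h q =>
      have := hw _ h
      subst this
      rw [Walk.length_cons]
      have := dist_le q
      omega
  have h5 := h4 u hu
  have h6 := h4 v hv
  have h7 := hG.dist_triangle (u := u) (v := n) (w := v)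
  rw [dist_comm (u := n) (v := u)] at h5
  rw [dist_comm (u := w) (v := u)] at h5
  omega

/-- The comb without its apex. -/
abbrev combMinus (k M : ℕ) : SimpleGraph ↥({none}ᶜ : Set (Vert k M)) :=
  (comb k M).induce {none}ᶜ

/-- a vertex of the comb without apex -/
def vx {k M : ℕ} (i : Fin k) (s : Fin (M + 1)) : ↥({none}ᶜ : Set (Vert k M)) :=
  ⟨some (i, s), by simp⟩

theorem exists_vx {k M : ℕ} (v : ↥({none}ᶜ : Set (Vert k M))) : ∃ i s, v = vx i s := by
  obtain ⟨v, hv⟩ := v
  rcases v with _ | ⟨i, s⟩
  · exact absurd rfl hv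
  · exact ⟨i, s, rfl⟩

theorem adj_vx {k M : ℕ} (i j : Fin k) (s t : Fin (M + 1)) :
    (combMinus k M).Adj (vx i s) (vx j t) ↔
      (i.val = j.val ∧ (s.val + 1 = t.val ∨ t.val + 1 = s.val)) ∨
        (s.val = 0 ∧ t.val = 0 ∧ (i.val + 1 = j.val ∨ j.val + 1 = i.val)) := Iff.rfl

theorem combMinus_connected {k M : ℕ} (hk : 1 ≤ k) : (combMinus k M).Connected := by
  rw [connected_iff_exists_forall_reachable]
  have hleg : ∀ (i : Fin k) (n : ℕ) (hn : n < M + 1),
      (combMinus k M).Reachable (vx i 0) (vx i ⟨n, hn⟩) := by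
    intro i n
    induction n with
    | zero => exact fun _ => Reachable.refl _
    | succ n ih =>
      intro hn
      refine (ih (by omega)).trans ?_
      exact ((adj_vx i i ⟨n, by omega⟩ ⟨n + 1, hn⟩).2 (Or.inl ⟨rfl, Or.inl rfl⟩)).reachable
  have hsp : ∀ (n : ℕ) (hn : n < k),
      (combMinus k M).Reachable (vx ⟨0, by omega⟩ 0) (vx ⟨n, hn⟩ 0) := by
    intro n
    induction n with
    | zero => exact fun _ => Reachable.refl _
    | succ n ih =>
      intro hn
      refine (ih (by omega)).trans ?_
      exact ((adj_vx ⟨n, by omega⟩ ⟨n + 1, hn⟩ 0 0).2 (Or.inr ⟨rfl, rfl, Or.inl rfl⟩)).reachable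
  refine ⟨vx ⟨0, by omega⟩ 0, fun v => ?_⟩
  obtain ⟨i, s, rfl⟩ := exists_vx v
  exact (hsp i.val i.2).trans (hleg i s.val s.2)

theorem le_muO {k M : ℕ} (hk : 1 ≤ k) (hM : 1 ≤ M) : k ≤ muO (combMinus k M) := by
  classical
  have hconn := combMinus_connected (M := M) hk
  let S : Finset ↥({none}ᶜ : Set (Vert k M)) := Finset.univ.image (fun i : Fin k => vx i (Fin.last M))
  have hcard : S.card = k := by
    rw [Finset.card_image_of_injective, Finset.card_univ, Fintype.card_fin]
    intro i j h
    have := congrArg Subtype.val h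
    exact congrArg Prod.fst (Option.some.inj this)
  have hS : IsOMV (combMinus k M) (S : Set ↥({none}ᶜ : Set (Vert k M))) := by
    intro u _ v
    obtain ⟨p, hp⟩ := hconn.exists_walk_length_eq_dist u v
    refine ⟨p, p.isPath_of_length_eq_dist hp, hp, ?_⟩
    intro w hw hwu hwv hwS
    rw [Finset.mem_coe, Finset.mem_image] at hwS
    obtain ⟨i, -, rfl⟩ := hwS
    refine leaf_not_internal hconn (n := vx i ⟨M - 1, by omega⟩) ?_ p hp hw hwu hwv
    intro y hy
    obtain ⟨j, t, rfl⟩ := exists_vx y
    rw [adj_vx] at hy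
    have h1 : (Fin.last M).val = M := rfl
    have h2 := t.2
    have e1 : j = i := Fin.ext (by omega)
    have e2 : t = ⟨M - 1, by omega⟩ := Fin.ext (by simp only; omega)
    rw [e1, e2]
  have hb : BddAbove {n | ∃ S : Finset ↥({none}ᶜ : Set (Vert k M)),
      IsOMV (combMinus k M) (S : Set ↥({none}ᶜ : Set (Vert k M))) ∧ S.card = n} := by
    refine ⟨Fintype.card ↥({none}ᶜ : Set (Vert k M)), ?_⟩
    rintro n ⟨T, -, rfl⟩
    exact Finset.card_le_univ T
  exact le_csSup hb ⟨S, hS, hcard⟩

/-- **Negative answer to Q1 of MP_a310d2_co.**  For all real `a, b` there are a finite connected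
graph `G` and a vertex `x` with `G - x` connected and `μ_o(G - x) > a μ_o(G) + b`. -/
theorem result (a b : ℝ) : ∃ (V : Type) (_ : Fintype V) (G : SimpleGraph V) (x : V),
    G.Connected ∧ (G.induce {x}ᶜ).Connected ∧
      a * (muO G : ℝ) + b < (muO (G.induce {x}ᶜ) : ℝ) := by
  obtain ⟨A, hA⟩ : ∃ A : ℕ, a ≤ A := exists_nat_ge a
  obtain ⟨B, hB⟩ : ∃ B : ℕ, b ≤ B := exists_nat_ge b
  let M := A + 1
  let C := 3 + (4 * M + 5) * (M + 1)
  let n := A * C + B + 1
  let k := (2 * M + 2) * n
  have hk : 1 ≤ k := Nat.mul_pos (by omega) (by omega)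
  refine ⟨Vert k M, inferInstance, comb k M, none, comb_connected k M,
    combMinus_connected hk, ?_⟩
  have h1 := muO_le k M
  have h2 : k ≤ muO (combMinus k M) := le_muO hk (by omega)
  have h3 : k / (2 * M + 2) = n := Nat.mul_div_cancel_left n (by omega)
  rw [h3] at h1
  have h4 : muO (comb k M) ≤ C + 2 * n := by simp only [C]; omega
  have h5 : A * muO (comb k M) + B < k := by
    have h6 : A * muO (comb k M) ≤ A * (C + 2 * n) := Nat.mul_le_mul_left A h4
    have h7 : A * (C + 2 * n) + B < (2 * M + 2) * n := by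
      have h8 : A * (C + 2 * n) + B + 1 = n + A * (2 * n) := by simp only [n]; ring
      have h9 : (2 * M + 2) * n = A * (2 * n) + 4 * n := by simp only [M]; ring
      omega
    exact lt_of_le_of_lt (by omega) h7
  have h6 : (A : ℝ) * muO (comb k M) + B < k := by exact_mod_cast h5
  have h7 : (k : ℝ) ≤ muO (combMinus k M) := by exact_mod_cast h2
  have h8 : a * (muO (comb k M) : ℝ) ≤ A * muO (comb k M) :=
    mul_le_mul_of_nonneg_right hA (Nat.cast_nonneg _)
  calc a * (muO (comb k M) : ℝ) + b ≤ A * muO (comb k M) + B := add_le_add h8 hB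
    _ < k := h6
    _ ≤ _ := h7

end Pool.Agent.Results.MP_a310d2_co.NoLinearBound
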